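import Pool.Agent.helper36.NF.Spec

/-!
# No formula for a divisor of a Fermat number, row GRP: grouping by powers of `X`
-/

set_option autoImplicit false

open Polynomial Filter

namespace Pool.Agent.NoFormula

theorem GRP_bound (P : ℤ[X]) : ∃ K : ℕ, ∀ᶠ m : ℕ in atTop, |P.eval (m : ℤ)| ≤ (m : ℤ) ^ K := by
  refine Polynomial.induction_on' P ?_ ?_
  · rintro p r ⟨K1, h1⟩ ⟨K2, h2⟩
    refine ⟨max K1 K2 + 1, ?_⟩
    filter_upwards [h1, h2, eventually_ge_atTop 2] with m h1 h2 hm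
    have hm' : (2 : ℤ) ≤ m := by exact_mod_cast hm
    have hm1 : (1 : ℤ) ≤ m := by linarith
    rw [eval_add]
    have e1 : (m : ℤ) ^ K1 ≤ (m : ℤ) ^ (max K1 K2) := pow_le_pow_right₀ hm1 (le_max_left _ _)
    have e2 : (m : ℤ) ^ K2 ≤ (m : ℤ) ^ (max K1 K2) := pow_le_pow_right₀ hm1 (le_max_right _ _)
    have e3 : (0 : ℤ) ≤ (m : ℤ) ^ (max K1 K2) := by positivity
    calc |p.eval (m : ℤ) + r.eval (m : ℤ)| ≤ |p.eval (m : ℤ)| + |r.eval (m : ℤ)| := abs_add_le _ _
      _ ≤ 2 * (m : ℤ) ^ (max K1 K2) := by linarith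
      _ ≤ m * (m : ℤ) ^ (max K1 K2) := mul_le_mul_of_nonneg_right hm' e3
      _ = (m : ℤ) ^ (max K1 K2 + 1) := by ring
  · intro n a
    refine ⟨n + 1, ?_⟩
    filter_upwards [eventually_ge_atTop a.natAbs] with m hm
    rw [eval_monomial, abs_mul, abs_pow, abs_of_nonneg (by positivity : (0 : ℤ) ≤ (m : ℤ))]
    have h1 : |a| ≤ (m : ℤ) := by
      rw [Int.abs_eq_natAbs]
      exact_mod_cast hm
    calc |a| * (m : ℤ) ^ n ≤ (m : ℤ) * (m : ℤ) ^ n := mul_le_mul_of_nonneg_right h1 (by positivity)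
      _ = (m : ℤ) ^ (n + 1) := by ring

theorem GRP_ev {α : Type} (L : List α) (P : α → ℕ → Prop) (h : ∀ x ∈ L, ∀ᶠ m : ℕ in atTop, P x m) :
    ∀ᶠ m : ℕ in atTop, ∀ x ∈ L, P x m := by
  induction L with
  | nil => exact Eventually.of_forall fun m x hx => absurd hx List.not_mem_nil
  | cons a L ih =>
    filter_upwards [h a List.mem_cons_self, ih fun x hx => h x (List.mem_cons_of_mem _ hx)] with m h1 h2
    intro x hx
    rcases List.mem_cons.1 hx with rfl | hx
    · exact h1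
    · exact h2 x hx

theorem GRP_mono (P : ℤ[X]) (K K' : ℕ) (hK : K ≤ K') (h : ∀ᶠ m : ℕ in atTop, |P.eval (m : ℤ)| ≤ (m : ℤ) ^ K) :
    ∀ᶠ m : ℕ in atTop, |P.eval (m : ℤ)| ≤ (m : ℤ) ^ K' := by
  filter_upwards [h, eventually_ge_atTop 1] with m h hm
  have hm1 : (1 : ℤ) ≤ m := by exact_mod_cast hm
  exact h.trans (pow_le_pow_right₀ hm1 hK)

/-- a common exponent and a common bound of the second entries -/
theorem GRP_common (L : List (ℤ[X] × ℕ × ℤ[X])) : ∃ K D : ℕ, ∀ x ∈ L, x.2.1 ≤ D ∧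
    (∀ᶠ m : ℕ in atTop, |x.1.eval (m : ℤ)| ≤ (m : ℤ) ^ K) ∧
    ∀ᶠ m : ℕ in atTop, |x.2.2.eval (m : ℤ)| ≤ (m : ℤ) ^ K := by
  induction L with
  | nil => exact ⟨0, 0, fun x hx => absurd hx List.not_mem_nil⟩
  | cons a L ih =>
    obtain ⟨K, D, h⟩ := ih
    obtain ⟨K1, h1⟩ := GRP_bound a.1
    obtain ⟨K2, h2⟩ := GRP_bound a.2.2
    refine ⟨max K (max K1 K2), max D a.2.1, fun x hx => ?_⟩
    rcases List.mem_cons.1 hx with rfl | hx
    · exact ⟨le_max_right _ _, GRP_mono _ _ _ ((le_max_left K1 K2).trans (le_max_right _ _)) h1,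
        GRP_mono _ _ _ ((le_max_right K1 K2).trans (le_max_right _ _)) h2⟩
    · obtain ⟨e1, e2, e3⟩ := h x hx
      exact ⟨e1.trans (le_max_left _ _), GRP_mono _ _ _ (le_max_left _ _) e2, GRP_mono _ _ _ (le_max_left _ _) e3⟩

/-- the coefficients -/
def GRP_B (K : ℕ) (L : List (ℤ[X] × ℕ × ℤ[X])) (c m : ℕ) : ℤ :=
  (L.map (fun x => if x.2.1 = c then x.1.eval (m : ℤ) * 2 ^ ((m : ℤ) ^ K + x.2.2.eval (m : ℤ)).toNat else 0)).sum

theorem GRP_id (K D J m : ℕ) : ∀ L : List (ℤ[X] × ℕ × ℤ[X]), (∀ x ∈ L, x.2.1 ≤ D) →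
    (∀ x ∈ L, 0 ≤ (x.2.1 : ℤ) * 2 ^ (m - J) + x.2.2.eval (m : ℤ)) →
    (∀ x ∈ L, |x.2.2.eval (m : ℤ)| ≤ (m : ℤ) ^ K) →
    2 ^ (m ^ K) * (L.map (fun x => x.1.eval (m : ℤ) *
        2 ^ ((x.2.1 : ℤ) * 2 ^ (m - J) + x.2.2.eval (m : ℤ)).toNat)).sum =
      ∑ c ∈ Finset.range (D + 1), GRP_B K L c m * (2 ^ (2 ^ (m - J))) ^ c := by
  intro L
  induction L with
  | nil =>
    intro _ _ _
    simp [GRP_B]
  | cons x L ih =>
    intro h1 h2 h3
    have ih' := ih (fun y hy => h1 y (List.mem_cons_of_mem _ hy)) (fun y hy => h2 y (List.mem_cons_of_mem _ hy))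
      (fun y hy => h3 y (List.mem_cons_of_mem _ hy))
    have g1 := h1 x List.mem_cons_self
    have g2 := h2 x List.mem_cons_self
    have g3 := h3 x List.mem_cons_self
    rw [List.map_cons, List.sum_cons, mul_add, ih']
    have e1 : ∀ c, GRP_B K (x :: L) c m = (if x.2.1 = c then x.1.eval (m : ℤ) *
        2 ^ ((m : ℤ) ^ K + x.2.2.eval (m : ℤ)).toNat else 0) + GRP_B K L c m := by
      intro c
      unfold GRP_B
      rw [List.map_cons, List.sum_cons]
    have e2 : ∑ c ∈ Finset.range (D + 1), GRP_B K (x :: L) c m * (2 ^ (2 ^ (m - J))) ^ c =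
        x.1.eval (m : ℤ) * 2 ^ ((m : ℤ) ^ K + x.2.2.eval (m : ℤ)).toNat * (2 ^ (2 ^ (m - J))) ^ x.2.1 +
        ∑ c ∈ Finset.range (D + 1), GRP_B K L c m * (2 ^ (2 ^ (m - J))) ^ c := by
      simp_rw [e1, add_mul]
      rw [Finset.sum_add_distrib]
      congr 1
      simp_rw [ite_mul, zero_mul]
      rw [Finset.sum_ite_eq, if_pos (Finset.mem_range.2 (by omega))]
    rw [e2]
    congr 1
    have n1 : (((x.2.1 : ℤ) * 2 ^ (m - J) + x.2.2.eval (m : ℤ)).toNat : ℤ) =
        (x.2.1 : ℤ) * 2 ^ (m - J) + x.2.2.eval (m : ℤ) := Int.toNat_of_nonneg g2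
    have n2 : (((m : ℤ) ^ K + x.2.2.eval (m : ℤ)).toNat : ℤ) = (m : ℤ) ^ K + x.2.2.eval (m : ℤ) :=
      Int.toNat_of_nonneg (by linarith [(abs_le.1 g3).1])
    have n3 : m ^ K + ((x.2.1 : ℤ) * 2 ^ (m - J) + x.2.2.eval (m : ℤ)).toNat =
        ((m : ℤ) ^ K + x.2.2.eval (m : ℤ)).toNat + 2 ^ (m - J) * x.2.1 := by
      have : ((m ^ K + ((x.2.1 : ℤ) * 2 ^ (m - J) + x.2.2.eval (m : ℤ)).toNat : ℕ) : ℤ) =
          ((((m : ℤ) ^ K + x.2.2.eval (m : ℤ)).toNat + 2 ^ (m - J) * x.2.1 : ℕ) : ℤ) := by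
        push_cast [n1, n2]
        ring
      exact_mod_cast this
    have n4 : (2 : ℤ) ^ (m ^ K) * 2 ^ ((x.2.1 : ℤ) * 2 ^ (m - J) + x.2.2.eval (m : ℤ)).toNat =
        2 ^ ((m : ℤ) ^ K + x.2.2.eval (m : ℤ)).toNat * (2 ^ (2 ^ (m - J))) ^ x.2.1 := by
      rw [← pow_add, n3, pow_add, ← pow_mul]
    linear_combination (x.1.eval (m : ℤ)) * n4

theorem GRP_lev (K : ℕ) (L : List (ℤ[X] × ℕ × ℤ[X]))
    (h : ∀ x ∈ L, ∀ᶠ m : ℕ in atTop, |x.2.2.eval (m : ℤ)| ≤ (m : ℤ) ^ K) (c : ℕ) : Lev 1 (GRP_B K L c) := by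
  refine ⟨L.map (fun x => (if x.2.1 = c then x.1 else 0, fun m : ℕ => (m : ℤ) ^ K + x.2.2.eval (m : ℤ))), ?_, ?_⟩
  · intro y hy
    obtain ⟨x, hx, rfl⟩ := List.mem_map.1 hy
    refine ⟨⟨X ^ K + x.2.2, Eventually.of_forall fun m => by simp⟩, ?_⟩
    filter_upwards [h x hx] with m hm
    have := (abs_le.1 hm).1
    linarith
  · refine Eventually.of_forall fun m => ?_
    unfold GRP_B sm tm
    rw [List.map_map]
    congr 1
    refine List.map_congr_left fun x _ => ?_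
    simp only [Function.comp]
    split_ifs
    · rfl
    · simp

theorem GRP_zero (hDCH : DCH_stmt) (g : ℕ → ℤ) (hg : Lev 1 g) :
    (∀ᶠ m : ℕ in atTop, g m = 0) ∨ ∀ᶠ m : ℕ in atTop, g m ≠ 0 := by
  rcases hDCH 1 g hg with ⟨c, hc⟩ | ⟨C, hC⟩ | ⟨C, hC⟩
  · by_cases h : c = 0
    · left
      filter_upwards [hc] with m hm
      rw [hm, h]
    · right
      filter_upwards [hc] with m hm
      rw [hm]
      exact h
  · right
    filter_upwards [hC, eventually_gt_atTop C.toNat] with m hm hm2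
    have : C < m := by omega
    omega
  · right
    filter_upwards [hC, eventually_gt_atTop C.toNat] with m hm hm2
    have : C < m := by omega
    omega

theorem GRP_size (K m : ℕ) : ∀ L : List (ℤ[X] × ℕ × ℤ[X]),
    (∀ x ∈ L, |x.1.eval (m : ℤ)| ≤ (m : ℤ) ^ K) → (∀ x ∈ L, |x.2.2.eval (m : ℤ)| ≤ (m : ℤ) ^ K) →
    ∀ c, |GRP_B K L c m| ≤ L.length * 2 ^ (3 * m ^ K) := by
  intro L
  induction L with
  | nil =>
    intro _ _ c
    simp [GRP_B]
  | cons x L ih =>
    intro h1 h2 c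
    have ih' := ih (fun y hy => h1 y (List.mem_cons_of_mem _ hy)) (fun y hy => h2 y (List.mem_cons_of_mem _ hy)) c
    have g1 := h1 x List.mem_cons_self
    have g2 := h2 x List.mem_cons_self
    have e1 : GRP_B K (x :: L) c m = (if x.2.1 = c then x.1.eval (m : ℤ) *
        2 ^ ((m : ℤ) ^ K + x.2.2.eval (m : ℤ)).toNat else 0) + GRP_B K L c m := by
      unfold GRP_B
      rw [List.map_cons, List.sum_cons]
    have e2 : |if x.2.1 = c then x.1.eval (m : ℤ) * 2 ^ ((m : ℤ) ^ K + x.2.2.eval (m : ℤ)).toNat else 0| ≤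
        2 ^ (3 * m ^ K) := by
      split_ifs
      · rw [abs_mul, abs_pow, abs_two]
        have a1 : (m : ℤ) ^ K ≤ 2 ^ (m ^ K) := by
          have : m ^ K < 2 ^ (m ^ K) := Nat.lt_two_pow_self
          exact_mod_cast this.le
        have a2 : ((m : ℤ) ^ K + x.2.2.eval (m : ℤ)).toNat ≤ 2 * m ^ K := by
          have b1 := (abs_le.1 g2).2
          rw [Int.toNat_le]
          push_cast
          linarith
        have a3 : (2 : ℤ) ^ ((m : ℤ) ^ K + x.2.2.eval (m : ℤ)).toNat ≤ 2 ^ (2 * m ^ K) :=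
          pow_le_pow_right₀ (by norm_num) a2
        calc |x.1.eval (m : ℤ)| * 2 ^ ((m : ℤ) ^ K + x.2.2.eval (m : ℤ)).toNat ≤ 2 ^ (m ^ K) * 2 ^ (2 * m ^ K) :=
              mul_le_mul (g1.trans a1) a3 (by positivity) (by positivity)
          _ = 2 ^ (3 * m ^ K) := by
              rw [← pow_add]
              congr 1
              ring
      · rw [abs_zero]
        positivity
    rw [e1, List.length_cons]
    push_cast
    calc _ ≤ |if x.2.1 = c then x.1.eval (m : ℤ) * 2 ^ ((m : ℤ) ^ K + x.2.2.eval (m : ℤ)).toNat else 0| +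
          |GRP_B K L c m| := abs_add_le _ _
      _ ≤ 2 ^ (3 * m ^ K) + L.length * 2 ^ (3 * m ^ K) := add_le_add e2 ih'
      _ = _ := by ring

theorem GRP (hLVA : LVA_stmt) (hDCH : DCH_stmt) : GRP_stmt := by
  intro f J L hpos hf
  obtain ⟨K, D, hKD⟩ := GRP_common L
  have hlev := fun c => GRP_zero hDCH _ (GRP_lev K L (fun x hx => (hKD x hx).2.2) c)
  have hb1 := GRP_ev L (fun x m => |x.1.eval (m : ℤ)| ≤ (m : ℤ) ^ K) (fun x hx => (hKD x hx).2.1)
  have hb2 := GRP_ev L (fun x m => |x.2.2.eval (m : ℤ)| ≤ (m : ℤ) ^ K) (fun x hx => (hKD x hx).2.2)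
  have hp := GRP_ev L (fun x m => 0 ≤ (x.2.1 : ℤ) * 2 ^ (m - J) + x.2.2.eval (m : ℤ)) hpos
  have hid : ∀ᶠ m : ℕ in atTop, 2 ^ (m ^ K) * f m =
      ∑ c ∈ Finset.range (D + 1), GRP_B K L c m * (2 ^ (2 ^ (m - J))) ^ c := by
    filter_upwards [hb2, hp, hf] with m h1 h2 h3
    rw [h3]
    exact GRP_id K D J m L (fun x hx => (hKD x hx).1) h2 h1
  classical
  let S : Finset ℕ := (Finset.Icc 1 D).filter fun c => ¬ ∀ᶠ m : ℕ in atTop, GRP_B K L c m = 0
  rcases S.eq_empty_or_nonempty with hS | hS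
  · left
    have h0 : ∀ c ∈ Finset.Icc 1 D, ∀ᶠ m : ℕ in atTop, GRP_B K L c m = 0 := by
      intro c hc
      by_contra hcon
      have : c ∈ S := Finset.mem_filter.2 ⟨hc, hcon⟩
      rw [hS] at this
      exact Finset.notMem_empty _ this
    have h0' : ∀ᶠ m : ℕ in atTop, ∀ c ∈ Finset.Icc 1 D, GRP_B K L c m = 0 := (Filter.eventually_all_finset _).2 h0
    refine ⟨L.map (fun x => if x.2.1 = 0 then (x.1, x.2.2) else (0, 0)), ?_, ?_⟩
    · intro y hy
      obtain ⟨x, hx, rfl⟩ := List.mem_map.1 hy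
      by_cases h : x.2.1 = 0
      · filter_upwards [hpos x hx] with m hm
        rw [if_pos h]
        rw [h] at hm
        simpa using hm
      · refine Eventually.of_forall fun m => ?_
        rw [if_neg h]
        simp
    · filter_upwards [hb2, hp, hid, h0'] with m h1 h2 h3 h4
      have e1 : ∑ c ∈ Finset.range (D + 1), GRP_B K L c m * (2 ^ (2 ^ (m - J))) ^ c = GRP_B K L 0 m := by
        rw [Finset.sum_range_succ' , pow_zero, mul_one]
        rw [Finset.sum_eq_zero, zero_add]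
        intro c hc
        rw [h4 (c + 1) (Finset.mem_Icc.2 ⟨by omega, by have := Finset.mem_range.1 hc; omega⟩), zero_mul]
      have e2 : ∀ L' : List (ℤ[X] × ℕ × ℤ[X]), (∀ x ∈ L', 0 ≤ (x.2.1 : ℤ) * 2 ^ (m - J) + x.2.2.eval (m : ℤ)) →
          GRP_B K L' 0 m = 2 ^ (m ^ K) * ((L'.map (fun x => if x.2.1 = 0 then (x.1, x.2.2) else (0, 0))).map
            (fun x => x.1.eval (m : ℤ) * 2 ^ (x.2.eval (m : ℤ)).toNat)).sum := by
        intro L'
        induction L' with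
        | nil =>
          intro _
          simp [GRP_B]
        | cons x L' ih =>
          intro h5
          have ih' := ih fun y hy => h5 y (List.mem_cons_of_mem _ hy)
          have g := h5 x List.mem_cons_self
          have e3 : GRP_B K (x :: L') 0 m = (if x.2.1 = 0 then x.1.eval (m : ℤ) *
              2 ^ ((m : ℤ) ^ K + x.2.2.eval (m : ℤ)).toNat else 0) + GRP_B K L' 0 m := by
            unfold GRP_B
            rw [List.map_cons, List.sum_cons]
          rw [e3, ih', List.map_cons, List.map_cons, List.sum_cons, mul_add]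
          congr 1
          by_cases h : x.2.1 = 0
          · rw [if_pos h, if_pos h]
            rw [h] at g
            have g' : 0 ≤ x.2.2.eval (m : ℤ) := by simpa using g
            have n1 : ((m : ℤ) ^ K + x.2.2.eval (m : ℤ)).toNat = m ^ K + (x.2.2.eval (m : ℤ)).toNat := by
              have m1 : ((x.2.2.eval (m : ℤ)).toNat : ℤ) = x.2.2.eval (m : ℤ) := Int.toNat_of_nonneg g'
              have m2 : (((m : ℤ) ^ K + x.2.2.eval (m : ℤ)).toNat : ℤ) = (m : ℤ) ^ K + x.2.2.eval (m : ℤ) :=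
                Int.toNat_of_nonneg (by positivity)
              have m3 : (((((m : ℤ) ^ K + x.2.2.eval (m : ℤ)).toNat : ℕ)) : ℤ) =
                  ((m ^ K + (x.2.2.eval (m : ℤ)).toNat : ℕ) : ℤ) := by
                rw [m2]
                push_cast
                rw [m1]
              exact_mod_cast m3
            rw [n1, pow_add]
            simp only
            ring
          · rw [if_neg h, if_neg h]
            simp
      rw [e1, e2 L h2] at h3
      exact mul_left_cancel₀ (by positivity) h3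
  · right
    let d := S.max' hS
    have hd : d ∈ S := S.max'_mem hS
    have hd1 : 1 ≤ d := (Finset.mem_Icc.1 (Finset.mem_filter.1 hd).1).1
    have hdD : d ≤ D := (Finset.mem_Icc.1 (Finset.mem_filter.1 hd).1).2
    have hdne : ∀ᶠ m : ℕ in atTop, GRP_B K L d m ≠ 0 := by
      rcases hlev d with h | h
      · exact absurd h (Finset.mem_filter.1 hd).2
      · exact h
    have hgt : ∀ c ∈ Finset.Ioc d D, ∀ᶠ m : ℕ in atTop, GRP_B K L c m = 0 := by
      intro c hc
      by_contra hcon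
      have h1 := Finset.mem_Ioc.1 hc
      have : c ∈ S := Finset.mem_filter.2 ⟨Finset.mem_Icc.2 ⟨by omega, h1.2⟩, hcon⟩
      have h2 := S.le_max' c this
      have h3 : d < c := h1.1
      exact absurd h2 (not_le.2 h3)
    have hgt' : ∀ᶠ m : ℕ in atTop, ∀ c ∈ Finset.Ioc d D, GRP_B K L c m = 0 := (Filter.eventually_all_finset _).2 hgt
    refine ⟨K + 1, d, GRP_B K L, fun m => m ^ K, hd1, hdne, ?_, ?_, ?_⟩
    · filter_upwards [eventually_ge_atTop 1] with m hm
      exact Nat.pow_le_pow_right hm (Nat.le_succ K)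
    · filter_upwards [hb1, hb2, eventually_ge_atTop (L.length + 3)] with m h1 h2 hm c _
      have h3 := GRP_size K m L h1 h2 c
      have h4 : (L.length : ℤ) ≤ 2 ^ L.length := by
        have : L.length < 2 ^ L.length := Nat.lt_two_pow_self
        exact_mod_cast this.le
      have h5 : L.length + 3 * m ^ K ≤ m ^ (K + 1) := by
        have h6 : 1 ≤ m ^ K := Nat.one_le_pow _ _ (by omega)
        calc L.length + 3 * m ^ K ≤ (L.length + 3) * m ^ K := by nlinarith
          _ ≤ m * m ^ K := Nat.mul_le_mul_right _ hm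
          _ = m ^ (K + 1) := by ring
      calc |GRP_B K L c m| ≤ L.length * 2 ^ (3 * m ^ K) := h3
        _ ≤ 2 ^ L.length * 2 ^ (3 * m ^ K) := mul_le_mul_of_nonneg_right h4 (by positivity)
        _ = 2 ^ (L.length + 3 * m ^ K) := by rw [pow_add]
        _ ≤ 2 ^ (m ^ (K + 1)) := pow_le_pow_right₀ (by norm_num) h5
    · filter_upwards [hid, hgt'] with m h1 h2
      rw [h1]
      symm
      refine Finset.sum_subset (Finset.range_subset_range.2 (by omega)) ?_
      intro c hc hc'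
      have h3 := Finset.mem_range.1 hc
      have h4 : ¬ c < d + 1 := fun h => hc' (Finset.mem_range.2 h)
      rw [h2 c (Finset.mem_Ioc.2 ⟨by omega, by omega⟩), zero_mul]

end Pool.Agent.NoFormula
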